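import Pool.Agent.Lib_helper2.K4.DefsV
import Pool.Agent.Lib_helper60.K4H.L1
import Pool.Agent.Lib_helper24.K4H.L234
import Pool.Agent.Lib_helper86.K4H.L589
import Pool.Agent.Lib_helper2.K4.HGlue
import Pool.Agent.Lib_helper66.K4M.RankD
import Pool.Agent.Lib_helper7.K4L.Lev

set_option autoImplicit false

/-!
# MP_4132b3_nt, LevelsK4

Closed elements of level `N` in the polylogarithmic complex of Goncharov.

`F` is an algebraically closed field of characteristic zero, `W` an elliptic curve over `F` and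
`To W` its group of torsion points.
-/

namespace Pool.Agent.Results.MP_4132b3_nt.LevelsK4

open Pool.Agent.MK4

theorem result {F : Type*} [Field F] [CharZero F] [IsAlgClosed F] [DecidableEq F]
    (W : WeierstrassCurve.Affine F) (hW : W.Δ ≠ 0) :
    ∃ (g : To W → FT F) (t : To W → To W → B2 F) (ξ : To W → To W → HK F),
      -- the Siegel units, the triangulation and the classes, and their uniqueness
      Data g t ξ ∧ (∀ g' t' ξ', Data (W := W) g' t' ξ' → g' = g ∧ t' = t ∧ ξ' = ξ) ∧
      (∀ a b, HasD (t a b) (dt g a b)) ∧ (∀ a b, Closed (ξ a b)) ∧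
      -- the closed elements of level `N`
      (∀ N, 0 < N → Level0 g t N) ∧
      (∀ N, 0 < N → N ≤ 26 ∧ N ≠ 21 ∧ N ≠ 24 ∨ N = 31 → Level1 g t ξ N) ∧
      (∀ N, 0 < N → N ≤ 52 → N ∉ [36, 45, 48, 49, 50] → Level2 g t ξ N) ∧
      -- the classes of prime level span a space of dimension at most the genus
      GenusBound ξ := by
  obtain ⟨t, ⟨ht, hC⟩, hu⟩ := K4D2.exists_unique_closed hW
  have hT : Tri cr (t : To W → To W → B2 F) := (tri_iff_T hW).mpr ⟨ht, hC⟩
  have hH : HypT hW t := ⟨ht, hC⟩
  refine ⟨(K4M.gT : To W → FT F), t, fun a b => hk (t a b) (K4M.gT b - K4M.gT a), ⟨?_, hT, fun a b => rfl⟩, ?_,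
    fun a b => hasD_T hW hT a b, fun a b => closed_T hW hT a b, ?_, ?_, ?_, genusBound_of_manin (manin_T hW hT)⟩
  · intro a b h h'
    exact siegel_gT a b h h'
  · rintro g' t' ξ' ⟨h1, h2, h3⟩
    have e1 : g' = (K4M.gT : To W → FT F) := siegel_unique hW h1
    have e2 : t' = (t : To W → To W → B2 F) := hu t' ((tri_iff_T hW).mp h2)
    subst e1 e2
    exact ⟨rfl, rfl, funext fun a => funext fun b => h3 a b⟩
  · exact fun N hN => level0V hW hH hN
  · exact fun N hN hN' => level1V hW hH N hN hN'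
  · exact fun N hN h52 hN' => level2V hW hH N hN h52 hN'

end Pool.Agent.Results.MP_4132b3_nt.LevelsK4
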