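import Pool.Agent.Lib_helper71.TU.BrF
import Pool.Agent.Lib_helper71.TU.Old

set_option autoImplicit false

/-!
# MP_4132b3_nt, TorsionUnits

The elements of `K₄` of an elliptic curve built on the functions supported on a finite group `H` of
points, i.e. the closed elements of `S = Sp (T H X Y) Set.univ 0`: they are constant
(`ClosedIn H X Y 0`), or they are, up to the constants, the multiples of one class with a regulator
which is not zero (`Line H X Y`).
-/

namespace Pool.Agent.Results.MP_4132b3_nt.TorsionUnits

open Pool.Agent.TK4

theorem result.{u, v} {k : Type u} {F : Type v} [Field k] [DecidableEq k] [CharZero k] [Field F]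
    [Algebra k F] (W : WeierstrassCurve.Affine k) (X Y : F) (hg : Generic W X Y) :
    Rational.{v} ∧
    (∀ H : AddSubgroup W.Point, (H : Set W.Point).Finite → General H X Y) ∧
    (∀ P : W.Point, addOrderOf P ∈ ({4, 5, 6, 7, 8, 9, 10, 12} : Set ℕ) → Cyc P X Y) :=
  bridge W X Y hg (FK4.torsionUnits W X Y ((generic_iff W X Y).mp hg))

end Pool.Agent.Results.MP_4132b3_nt.TorsionUnits
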