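import Mathlib
import Pool.Agent.Lib_helper76.TCL.Defs
import Pool.Agent.Lib_helper87.KTD.Defs
import Pool.Agent.Lib_helper87.KTD.St0
import Pool.Agent.Lib_helper87.KTD.Y.YG

set_option autoImplicit false

/-!
# MP_4132b3_nt, TripleSeries

Elliptic curves over `ℚ` with complex multiplication by the ring of integers `O` of an imaginary
quadratic field `K` (of class number one), with Hecke character `ψ(a) = ε(a) a` of conductor `f`.
The torsion points are `K / O`, `Gal(ℚbar / K)` acts on them through the `ψ(a)`, and complex
conjugation acts as `t ↦ u conj(t)` for a unit `u`.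

Goncharov's triple Kronecker-Eisenstein series
`K(x, y, z; v, w) = ∑ ⟨x, a⟩ ⟨y, b⟩ ⟨z, c⟩ (w conj(a) - v conj(b)) / |a b c|²`, the sum over the nonzero
`a, b, c ∈ O` with `a + b + c = 0`, describes the regulator on the elements `∑ {f}₂ ⊗ g` of `K_4` of the
curve given by functions with torsion divisors. A formal combination `Z` of symbols `(x, y, z; v, w)`,
`x, y, z` arbitrary torsion points, `v, w ∈ K`, is closed if its cobracket is zero in the module of
bidistributions (distribution relations in both variables, of weights `1 / conj r` and `1`, and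
invariance under Galois; zero if one of the arguments is zero).

The theorem: the values of the triple series on the closed combinations, traced down to `K`, are
exactly the elements of the line `K L(ψ, 3)`; the values on the closed combinations which are
invariant under complex conjugation are exactly the elements of `ℚ δ L(ψ, 3)`, where `δ ∈ K`,
`conj δ = u δ`, `δ ≠ 0`. (`L(ψ, 3) ≠ 0`.)
-/

namespace Pool.Agent.Results.MP_4132b3_nt.TripleSeries

open Pool.Agent.TCL Pool.Agent.KTD

theorem result {O : Subring ℂ} {ω : ℂ} (hO : Quad O ω) (hP : IsPrincipalIdealRing O)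
    {f : O} (hf : f ≠ 0) {ε : O → O} (hε : GC O f ε) :
    {t : ℂ | ∃ (n : ℕ) (x y z : Fin n → ℂ) (v w : Fin n → KK O) (M : O) (S : Finset O),
        Adm0 O f ε n x y z v w M S ∧ t = TR0 O ω ε M S n x y z v w} =
      {t : ℂ | ∃ ρ : KK O, t = ρ * LE O ε} ∧
    ∀ (u : O) (δ : KK O), IsUnit u → δ ≠ 0 → starRingEnd ℂ (δ : ℂ) = u * δ →
      {t : ℂ | ∃ (n : ℕ) (x y z : Fin n → ℂ) (v w : Fin n → KK O) (M : O) (S : Finset O),
          Adm0 O f ε n x y z v w M S ∧ CInv0 O u n x y z v w ∧
            t = TR0 O ω ε M S n x y z v w} =
        {t : ℂ | ∃ r : ℚ, t = r * δ * LE O ε} :=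
  final_sets hO hP hf hε

end Pool.Agent.Results.MP_4132b3_nt.TripleSeries
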